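import Pool.Agent.Lib.MP_232f4c_nt.Moment

/-!
The subsequential Sarnak property for random multiplicative functions.
-/

open MeasureTheory ProbabilityTheory Filter
open scoped BoundedContinuousFunction

/-- Let `f` be a random 1-bounded multiplicative function with independent local factors and
`∑ (1 - |E f(p)|) / p = ∞`. Every sequence of scales has a subsequence `N` such that almost surely
`f` is orthogonal along `N` to every weight that is completely deterministic along `N`. -/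
theorem Pool.Agent.Variants.MP_232f4c_nt.RandomMult.result
    {Ω : Type} [MeasurableSpace Ω] (Pr : Measure Ω) (f : Ω → ℕ → ℂ)
    (h1 : ∀ ω n, ‖f ω n‖ ≤ 1) (h2 : ∀ ω, f ω 1 = 1)
    (h3 : ∀ ω (m n : ℕ), 0 < m → 0 < n → Nat.Coprime m n → f ω (m * n) = f ω m * f ω n)
    (h4 : ∀ n, Measurable fun ω => f ω n)
    (h5 : iIndepFun (fun (p : Nat.Primes) ω (k : ℕ) => f ω ((p : ℕ) ^ k)) Pr)
    (h6 : ¬Summable fun p : Nat.Primes => (1 - ‖∫ ω, f ω p ∂Pr‖) / ((p : ℕ) : ℝ))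
    (M : ℕ → ℕ) (hM : Tendsto M atTop atTop) :
    ∃ ψ : ℕ → ℕ, StrictMono ψ ∧ ∀ᵐ ω ∂Pr, ∀ w : ℕ → ℂ, (∀ n, ‖w n‖ ≤ 1) →
      (∀ φ : ℕ → ℕ, StrictMono φ →
        ∀ μ : Measure (ℤ → ℂ), IsProbabilityMeasure μ →
        (∀ g : (ℤ → ℂ) →ᵇ ℝ,
          Tendsto (fun k : ℕ => (1 / (M (ψ (φ k)) : ℝ)) * ∑ n ∈ Finset.Icc 1 (M (ψ (φ k))),
            g (fun j : ℤ => if 0 < j + (n : ℤ) then w (j + (n : ℤ)).toNat else 0))
            atTop (nhds (∫ x, g x ∂μ))) →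
        ∀ m : ℕ, ∀ P : (ℤ → ℂ) → Fin m, Measurable P →
          Tendsto (fun r : ℕ => (1 / (r : ℝ)) * ∑ a : Fin r → Fin m, Real.negMulLog
            ((μ {x | ∀ i : Fin r, P (fun j : ℤ => x (j + (i.val : ℤ))) = a i}).toReal))
            atTop (nhds 0)) →
      Tendsto (fun k : ℕ => (1 / (M (ψ k) : ℂ)) * ∑ n ∈ Finset.Icc 1 (M (ψ k)), f ω n * w n)
        atTop (nhds 0) := by
  obtain ⟨ψ, k1, k2⟩ := Pool.Agent.Lib.MP_232f4c_nt.Rand.chow ⟨h1, h2, h3, h4, h5⟩ h6 hM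
  exact ⟨ψ, k1, k2.mono fun ω hω w hw hd => Pool.Agent.Lib.MP_232f4c_nt.orth
    (N := fun k => M (ψ k)) (hM.comp k1.tendsto_atTop) hω (h1 ω) hw hd⟩
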